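import Mathlib
import Pool.Agent.T2H75.NU.Fail
import Pool.Agent.T2H75.NU.B

namespace Pool.Agent.Results.MP_3cb207_an.BPBpNuWithoutPropertyNu

/-- `(x, f) ∈ Π(X)`: `‖x‖ = ‖f‖ = 1 = f x`. -/
def IsPair {𝕜 : Type*} [RCLike 𝕜] {X : Type*} [NormedAddCommGroup X] [NormedSpace 𝕜 X]
    (x : X) (f : X →L[𝕜] 𝕜) : Prop := ‖x‖ = 1 ∧ ‖f‖ = 1 ∧ f x = 1

/-- The numerical radius `ν(T) = sup {|f (T x)| : (x, f) ∈ Π(X)}`. -/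
noncomputable def numRadius {𝕜 : Type*} [RCLike 𝕜] {X : Type*} [NormedAddCommGroup X]
    [NormedSpace 𝕜 X] (T : X →L[𝕜] X) : ℝ :=
  sSup {r : ℝ | ∃ (x : X) (f : X →L[𝕜] 𝕜), IsPair x f ∧ r = ‖f (T x)‖}

/-- The Bishop–Phelps–Bollobás property for the numerical radius. -/
def BPBpNu (𝕜 : Type*) [RCLike 𝕜] (X : Type*) [NormedAddCommGroup X] [NormedSpace 𝕜 X] : Prop :=
  ∀ ε : ℝ, 0 < ε → ∃ η : ℝ, 0 < η ∧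
    ∀ (T : X →L[𝕜] X), numRadius T = 1 →
      ∀ (x₀ : X) (f₀ : X →L[𝕜] 𝕜), IsPair x₀ f₀ → 1 - η < ‖f₀ (T x₀)‖ →
        ∃ (S : X →L[𝕜] X) (x₁ : X) (f₁ : X →L[𝕜] 𝕜), IsPair x₁ f₁ ∧
          numRadius S = 1 ∧ ‖f₁ (S x₁)‖ = 1 ∧
          ‖S - T‖ < ε ∧ ‖x₁ - x₀‖ < ε ∧ ‖f₁ - f₀‖ < ε

/-- Property (nu). -/
def PropertyNu (𝕜 : Type*) [RCLike 𝕜] (X : Type*) [NormedAddCommGroup X] [NormedSpace 𝕜 X] :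
    Prop :=
  ∀ ε : ℝ, 0 < ε → ∃ η : ℝ, 0 < η ∧
    ∀ (T : X →L[𝕜] X) (x₀ : X) (f₀ : X →L[𝕜] 𝕜), ‖T‖ = 1 → ‖x₀‖ = 1 → ‖f₀‖ = 1 →
      1 - η < RCLike.re (f₀ x₀) → ‖f₀ (T x₀)‖ = 1 →
        ∃ (x₁ : X) (f₁ : X →L[𝕜] 𝕜) (S : X →L[𝕜] X), ‖x₁‖ = 1 ∧ ‖f₁‖ = 1 ∧ ‖S‖ = 1 ∧
          ‖f₁ (S x₁)‖ = 1 ∧ f₁ x₁ = 1 ∧
          ‖x₁ - x₀‖ < ε ∧ ‖f₁ - f₀‖ < ε ∧ ‖S - T‖ < ε

/-- There is a complex Banach space which has the Bishop–Phelps–Bollobás property for the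
numerical radius and fails property (nu). -/
theorem result :
    ∃ (X : Type) (_ : NormedAddCommGroup X) (_ : NormedSpace ℂ X) (_ : CompleteSpace X),
      BPBpNu ℂ X ∧ ¬ PropertyNu ℂ X :=
  ⟨Pool.Agent.T2H75.NU.XX, inferInstance, inferInstance, inferInstance,
    Pool.Agent.T2H75.NU.a_stmt Pool.Agent.T2H75.NU.XX (1 / 2) 2 4 (by norm_num)
      Pool.Agent.T2H75.NU.two_XX (Pool.Agent.T2H75.NU.b_stmt Pool.Agent.T2H75.NU.XX),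
    Pool.Agent.T2H75.NU.not_nu⟩

end Pool.Agent.Results.MP_3cb207_an.BPBpNuWithoutPropertyNu
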